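import Pool.Agent.Q56.LN.Alm

/-!
# Arbitrary families on the line `x + y = n`: almost prime values, and the upper bound for the prime values
-/

set_option autoImplicit false

namespace Pool.Agent.Results.MP_0da313_nt.AlmostPrimesUpperBound

open Finset Filter
open Pool.Agent.Q56.LN (ev NoFixed nu Vn AP)

/-- Let `f₁, ..., f_m`, `m ≥ 1`, be nonconstant polynomials in two variables. For all large `n` such that no prime
divides all the `∏ f_k (x, n - x)`, and with `V = ∏_{q ≤ n} (1 - ν_n(q) / q)`, there are at least `κ n V` numbers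
`0 < x < n` such that all the `|f_k (x, n - x)|` are products of at most `R` primes, all of them larger than `n ^ δ`,
and there are at most `C n V` numbers `0 < x < n` such that all the `|f_k (x, n - x)|` are primes. -/
theorem result {m : ℕ} (hm : 1 ≤ m) (f : Fin m → MvPolynomial (Fin 2) ℤ) (hnc : ∀ k z, f k ≠ MvPolynomial.C z) :
    ∃ (R E n₀ : ℕ) (δ κ C : ℝ), 0 < δ ∧ 0 < κ ∧ 0 < C ∧ ∀ n : ℕ, n₀ ≤ n → NoFixed f n →
      κ / Real.log n ^ E ≤ Vn f n ∧
      (∃ S : Finset ℕ, κ * (n * Vn f n) ≤ (S.card : ℝ) ∧ ∀ x ∈ S, 0 < x ∧ x < n ∧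
        ∀ k, AP R ((n : ℝ) ^ δ) (ev (f k) x (n - x))) ∧
      ∀ S : Finset ℕ, (∀ x ∈ S, 0 < x ∧ x < n ∧ ∀ k, (ev (f k) x (n - x)).natAbs.Prime) →
        (S.card : ℝ) ≤ C * (n * Vn f n) := by
  classical
  obtain ⟨R, n₀, δ, κ, C, hδ, hκ, hC, h⟩ := Pool.Agent.Q56.LN.alm_main f hnc
  obtain ⟨c, hc, hV⟩ := Pool.Agent.Q56.LN.Vn_low f
  refine ⟨R, 2 * Pool.Agent.Q56.LN.DD f, n₀ + 2 * Pool.Agent.Q56.LN.DD f + 3, δ, min c κ, C, hδ, lt_min hc hκ, hC, ?_⟩
  intro n hn hf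
  have h1 := hV n (by omega) hf
  have hlog : 0 ≤ Real.log n := Real.log_natCast_nonneg n
  have h0 : 0 ≤ Vn f n := le_trans (by positivity) h1
  refine ⟨le_trans (div_le_div_of_nonneg_right (min_le_left _ _) (by positivity)) h1, ?_, ?_⟩
  · obtain ⟨⟨S, hS1, hS2⟩, -⟩ := h n (by omega) hf
    exact ⟨S, le_trans (mul_le_mul_of_nonneg_right (min_le_right _ _) (by positivity)) hS1, hS2⟩
  · intro S hS
    refine le_trans ?_ ((h n (by omega) hf).2 hm)
    rw [Nat.cast_le]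
    apply card_le_card
    intro x hx
    obtain ⟨x1, x2, x3⟩ := hS x hx
    rw [mem_filter, mem_Ioo]
    exact ⟨⟨x1, x2⟩, x3⟩

end Pool.Agent.Results.MP_0da313_nt.AlmostPrimesUpperBound
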