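import Pool.Agent.Q56.LN.Main

/-!
# Chen's theorem for families of polynomials on the line `x + y = n`
-/

set_option autoImplicit false

namespace Pool.Agent.Results.MP_0da313_nt.ChenOnTheLine

open Finset Filter
open Pool.Agent.Q56.LN (ev LinUnit NoFixed nu Vn AP)

/-- Let `f₁, ..., f_m` be nonconstant polynomials in two variables, two of which, `fᵢ` and `fⱼ ≠ ± fᵢ`, are linear with
coefficient `1` or `-1` of `x` on the lines `x + y = n`. For all large `n` such that no prime divides all the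
`∏ f_k (x, n - x)`, there are at least `κ n ∏_{q ≤ n} (1 - ν_n(q) / q)` numbers `0 < x < n` such that `|fᵢ (x, n - x)|` is
a prime, `|fⱼ (x, n - x)|` is a prime or a product of two primes, and all the `|f_k (x, n - x)|` are products of at most
`R` primes, all of them larger than `n ^ δ`. -/
theorem result {m : ℕ} (f : Fin m → MvPolynomial (Fin 2) ℤ) (hnc : ∀ k z, f k ≠ MvPolynomial.C z)
    (i j : Fin m) (hi : LinUnit (f i)) (hj : LinUnit (f j)) (hne : f j ≠ f i) (hne' : f j ≠ -f i) :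
    ∃ (R E n₀ : ℕ) (δ κ : ℝ), 0 < δ ∧ 0 < κ ∧ ∀ n : ℕ, n₀ ≤ n → NoFixed f n →
      κ / Real.log n ^ E ≤ Vn f n ∧
      ∃ S : Finset ℕ, κ * (n * Vn f n) ≤ (S.card : ℝ) ∧ ∀ x ∈ S, 0 < x ∧ x < n ∧
        (ev (f i) x (n - x)).natAbs.Prime ∧
        AP 2 ((n : ℝ) ^ (1 / 9 : ℝ)) (ev (f j) x (n - x)) ∧
        ∀ k, AP R ((n : ℝ) ^ δ) (ev (f k) x (n - x)) := by
  classical
  obtain ⟨R, n₀, δ, κ, hδ, hκ, h⟩ := Pool.Agent.Q56.LN.chen_main f hnc i j hi hj hne hne'
  obtain ⟨c, hc, hV⟩ := Pool.Agent.Q56.LN.Vn_low f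
  refine ⟨R, 2 * Pool.Agent.Q56.LN.DD f, n₀ + 2 * Pool.Agent.Q56.LN.DD f + 3, δ, min c κ, hδ, lt_min hc hκ, ?_⟩
  intro n hn hf
  have h1 := hV n (by omega) hf
  have hlog : 0 ≤ Real.log n := Real.log_natCast_nonneg n
  have h0 : 0 ≤ Vn f n := le_trans (by positivity) h1
  refine ⟨le_trans (div_le_div_of_nonneg_right (min_le_left _ _) (by positivity)) h1,
    Pool.Agent.Q56.LN.Gx f i j R δ n, ?_, ?_⟩
  · refine le_trans ?_ (h n (by omega) hf)
    exact mul_le_mul_of_nonneg_right (min_le_right _ _) (by positivity)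
  · intro x hx
    unfold Pool.Agent.Q56.LN.Gx at hx
    rw [mem_filter, mem_Ioo] at hx
    exact ⟨hx.1.1, hx.1.2, hx.2.1, hx.2.2.1, hx.2.2.2⟩

end Pool.Agent.Results.MP_0da313_nt.ChenOnTheLine
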