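import Pool.Agent.Q56.LN.One2

/-!
# One prime value and almost prime values on the line `x + y = n`, for families with a linear member
-/

set_option autoImplicit false

namespace Pool.Agent.Results.MP_0da313_nt.OnePrimeRestAlmost

open Finset Filter
open Pool.Agent.Q56.LN (ev NoFixed nu Vn AP)

/-- Let `f₁, ..., f_m` be nonconstant polynomials in two variables, one of which is `fᵢ = a x + b y + c` with `a ≠ b`.
For all large `n` such that no prime divides all the `∏ f_k (x, n - x)`, there are at least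
`κ n ∏_{q ≤ n} (1 - ν_n(q) / q)` numbers `0 < x < n` such that `|fᵢ (x, n - x)|` is a prime and all the
`|f_k (x, n - x)|` are products of at most `R` primes, all of them larger than `n ^ δ`. -/
theorem result {m : ℕ} (f : Fin m → MvPolynomial (Fin 2) ℤ) (hnc : ∀ k z, f k ≠ MvPolynomial.C z)
    (i : Fin m) (a b c : ℤ) (hab : a ≠ b)
    (hi : f i = MvPolynomial.C a * MvPolynomial.X 0 + MvPolynomial.C b * MvPolynomial.X 1 + MvPolynomial.C c) :
    ∃ (R E n₀ : ℕ) (δ κ : ℝ), 0 < δ ∧ 0 < κ ∧ ∀ n : ℕ, n₀ ≤ n → NoFixed f n →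
      κ / Real.log n ^ E ≤ Vn f n ∧
      ∃ S : Finset ℕ, κ * (n * Vn f n) ≤ (S.card : ℝ) ∧ ∀ x ∈ S, 0 < x ∧ x < n ∧
        (ev (f i) x (n - x)).natAbs.Prime ∧ ∀ k, AP R ((n : ℝ) ^ δ) (ev (f k) x (n - x)) := by
  classical
  obtain ⟨R, n₀, δ, κ, hδ, hκ, h⟩ := Pool.Agent.Q56.LN.one_prime f hnc i a b c hab hi
  obtain ⟨c, hc, hV⟩ := Pool.Agent.Q56.LN.Vn_low f
  refine ⟨R, 2 * Pool.Agent.Q56.LN.DD f, n₀ + 2 * Pool.Agent.Q56.LN.DD f + 3, δ, min c κ, hδ, lt_min hc hκ, ?_⟩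
  intro n hn hf
  have h1 := hV n (by omega) hf
  have hlog : 0 ≤ Real.log n := Real.log_natCast_nonneg n
  have h0 : 0 ≤ Vn f n := le_trans (by positivity) h1
  refine ⟨le_trans (div_le_div_of_nonneg_right (min_le_left _ _) (by positivity)) h1, ?_⟩
  obtain ⟨S, hS1, hS2⟩ := h n (by omega) hf
  exact ⟨S, le_trans (mul_le_mul_of_nonneg_right (min_le_right _ _) (by positivity)) hS1, hS2⟩

end Pool.Agent.Results.MP_0da313_nt.OnePrimeRestAlmost
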