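import Pool.Agent.Q25.UReg4
import Pool.Agent.Q56.LN.Poly

/-!
# The laws of simultaneous almost prime values on the lines `x + y = n`, uniformly in `n`

Let `f₁, ..., f_m ∈ ℤ[x, y]`. For every large `n` for which the polynomials `f_k(x, n - x)` are irreducible and not constant
and no prime divides all the products of their values (for an admissible family: for every large `n`), call `x` good if
no `f_k(x, n - x)` has a prime factor `≤ n ^ (1/r)`. We prove, under a condition on the density of the good integers which is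
satisfied if two of the polynomials `f_k(x, n - x)` are linear, the Poisson law and the gap laws for the good integers in
all intervals of length `≥ n ^ θ` (if no two of the polynomials are translates by at most `n ^ η`), and that almost all
elements of an ARBITRARY set of good integers are regular points of this set. All this is uniform in `n`.
-/

set_option autoImplicit false

namespace Pool.Agent.Results.MP_0da313_nt.UniformLaws

open Finset Polynomial
open Pool.Agent.Q25.UReg (GoodP VP SmallDensity countP pois PoissonLawP GapLawP NoTr N RightOrder ConstantDensity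
  badScales Irregular Sys)

/-- the polynomial `f(x, n - x)` in `x` -/
noncomputable def line (f : MvPolynomial (Fin 2) ℤ) (n : ℕ) : ℤ[X] :=
  MvPolynomial.aeval ![Polynomial.X, Polynomial.C (n : ℤ) - Polynomial.X] f

/-- The two conditions of the problem for this `n`: the polynomials `f_k(x, n - x)` are irreducible (and not constant) and
no prime divides all the products of their values. -/
structure Adm {m : ℕ} (f : Fin m → MvPolynomial (Fin 2) ℤ) (n : ℕ) : Prop where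
  irr : ∀ k, Irreducible (line (f k) n)
  deg : ∀ k, 1 ≤ (line (f k) n).natDegree
  adm : ∀ p : ℕ, p.Prime → ∃ x : ℤ, ¬ (p : ℤ) ∣ ∏ k, (line (f k) n).eval x

/-- the coefficients -/
lemma coeff_le (f : MvPolynomial (Fin 2) ℤ) : ∃ C d : ℕ, ∀ n : ℕ, 1 ≤ n → ∀ j : ℕ,
    |(line f n).coeff j| ≤ (C : ℤ) * (n : ℤ) ^ d := by
  unfold line
  induction f using MvPolynomial.induction_on with
  | C a =>
    refine ⟨a.natAbs, 0, fun n _ j => ?_⟩
    rw [MvPolynomial.aeval_C, pow_zero, mul_one, Polynomial.algebraMap_apply, coeff_C]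
    split_ifs
    · simp
    · simp
  | add p q hp hq =>
    obtain ⟨C₁, d₁, h₁⟩ := hp
    obtain ⟨C₂, d₂, h₂⟩ := hq
    refine ⟨C₁ + C₂, d₁ + d₂, fun n hn j => ?_⟩
    have hn' : (1 : ℤ) ≤ n := by exact_mod_cast hn
    rw [map_add, coeff_add]
    have e1 : (n : ℤ) ^ d₁ ≤ (n : ℤ) ^ (d₁ + d₂) := pow_le_pow_right₀ hn' (by omega)
    have e2 : (n : ℤ) ^ d₂ ≤ (n : ℤ) ^ (d₁ + d₂) := pow_le_pow_right₀ hn' (by omega)
    calc _ ≤ _ := abs_add_le _ _
      _ ≤ (C₁ : ℤ) * (n : ℤ) ^ d₁ + (C₂ : ℤ) * (n : ℤ) ^ d₂ := add_le_add (h₁ n hn j) (h₂ n hn j)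
      _ ≤ (C₁ : ℤ) * (n : ℤ) ^ (d₁ + d₂) + (C₂ : ℤ) * (n : ℤ) ^ (d₁ + d₂) := by
          apply add_le_add <;> apply mul_le_mul_of_nonneg_left <;> first | assumption | positivity
      _ = _ := by push_cast; ring
  | mul_X p i hp =>
    obtain ⟨C₁, d₁, h₁⟩ := hp
    refine ⟨2 * C₁, d₁ + 1, fun n hn j => ?_⟩
    have hn' : (1 : ℤ) ≤ n := by exact_mod_cast hn
    have hpow : (0 : ℤ) ≤ (n : ℤ) ^ d₁ := by positivity
    have hC : (0 : ℤ) ≤ (C₁ : ℤ) * (n : ℤ) ^ d₁ := by positivity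
    have hX : ∀ P : ℤ[X], (∀ j, |P.coeff j| ≤ (C₁ : ℤ) * (n : ℤ) ^ d₁) →
        |(P * Polynomial.X).coeff j| ≤ (C₁ : ℤ) * (n : ℤ) ^ d₁ := by
      intro P hP
      cases j with
      | zero => rw [mul_coeff_zero, coeff_X_zero, mul_zero, abs_zero]; exact hC
      | succ j => rw [coeff_mul_X]; exact hP j
    rw [map_mul, MvPolynomial.aeval_X]
    fin_cases i
    · refine (hX _ (fun j => h₁ n hn j)).trans ?_
      have h2 : (0 : ℤ) ≤ (C₁ : ℤ) * (n : ℤ) ^ d₁ * (n - 1) := mul_nonneg hC (by linarith)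
      have h3 : (0 : ℤ) ≤ (C₁ : ℤ) * (n : ℤ) ^ d₁ * n := mul_nonneg hC (by linarith)
      push_cast
      rw [pow_succ]
      nlinarith
    · change |((MvPolynomial.aeval ![Polynomial.X, Polynomial.C (n : ℤ) - Polynomial.X] p) *
        (Polynomial.C (n : ℤ) - Polynomial.X)).coeff j| ≤ _
      rw [mul_sub, coeff_sub, coeff_mul_C]
      have h2 := h₁ n hn j
      have h3 := hX _ (fun j => h₁ n hn j)
      have h4 : |(MvPolynomial.aeval ![Polynomial.X, Polynomial.C (n : ℤ) - Polynomial.X] p).coeff j * (n : ℤ)| ≤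
          (C₁ : ℤ) * (n : ℤ) ^ d₁ * n := by
        rw [abs_mul, abs_of_nonneg (by linarith : (0 : ℤ) ≤ n)]
        exact mul_le_mul_of_nonneg_right h2 (by linarith)
      have h5 : (C₁ : ℤ) * (n : ℤ) ^ d₁ ≤ (C₁ : ℤ) * (n : ℤ) ^ d₁ * n := le_mul_of_one_le_right hC hn'
      calc _ ≤ _ := abs_sub _ _
        _ ≤ (C₁ : ℤ) * (n : ℤ) ^ d₁ * n + (C₁ : ℤ) * (n : ℤ) ^ d₁ := add_le_add h4 h3
        _ ≤ (C₁ : ℤ) * (n : ℤ) ^ d₁ * n + (C₁ : ℤ) * (n : ℤ) ^ d₁ * n := by linarith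
        _ = _ := by push_cast; ring

lemma deg_le (f : MvPolynomial (Fin 2) ℤ) (n : ℕ) : (line f n).natDegree ≤ f.totalDegree := by
  have h := Pool.Agent.Q56.LN.sub1_deg 1 0 n f
  have e : Pool.Agent.Q56.LN.sub1 1 0 n f = line f n := by
    unfold Pool.Agent.Q56.LN.sub1 line
    simp
  rwa [e] at h

/-- the systems for the large `n` -/
lemma sys {m : ℕ} (f : Fin m → MvPolynomial (Fin 2) ℤ) : ∃ (D : ℕ) (E : ℝ) (n₀ : ℕ), 0 < E ∧ ∀ n : ℕ, n₀ ≤ n → Adm f n →
    Sys D ((n : ℝ) ^ E) (fun k => line (f k) n) := by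
  choose C d h using fun k => coeff_le (f k)
  refine ⟨∑ k, (f k).totalDegree, ((∑ k, d k + 1 : ℕ) : ℝ), ∑ k, C k + 1, by positivity, fun n hn hf => ?_⟩
  have hn1 : 1 ≤ n := by omega
  refine ⟨hf.irr, hf.deg, fun k => ?_, fun k j => ?_, fun p hp => ?_⟩
  · exact (deg_le (f k) n).trans (single_le_sum (f := fun k => (f k).totalDegree) (fun _ _ => Nat.zero_le _) (mem_univ k))
  · have h1 := h k n hn1 j
    have h2 : C k ≤ ∑ k, C k := single_le_sum (f := C) (fun _ _ => Nat.zero_le _) (mem_univ k)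
    have h3 : d k ≤ ∑ k, d k := single_le_sum (f := d) (fun _ _ => Nat.zero_le _) (mem_univ k)
    have h4 : C k * n ^ d k ≤ n ^ (∑ k, d k + 1) := by
      calc C k * n ^ d k ≤ n * n ^ (∑ k, d k) := Nat.mul_le_mul (by omega) (Nat.pow_le_pow_right hn1 h3)
        _ = n ^ (∑ k, d k + 1) := by rw [pow_succ, mul_comm]
    have h5 : |(((line (f k) n).coeff j : ℤ) : ℝ)| ≤ ((C k * n ^ d k : ℕ) : ℝ) := by
      push_cast
      exact_mod_cast h1
    rw [Real.rpow_natCast]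
    exact h5.trans (by exact_mod_cast h4)
  · obtain ⟨x, hx⟩ := hf.adm p hp
    exact ⟨x, fun k hk => hx (hk.trans (dvd_prod_of_mem _ (mem_univ k)))⟩

/-- **The laws of simultaneous almost prime values on the lines `x + y = n`, uniformly in `n`.** -/
theorem result {m : ℕ} (f : Fin m → MvPolynomial (Fin 2) ℤ) (θ η : ℝ) (hθ : 0 < θ) (hη : 0 < η) :
    (∀ (l₀ : ℕ) (x₀ ε : ℝ), 0 < ε → ∃ r₀ : ℕ, ∀ r : ℕ, r₀ ≤ r → ∀ C : ℝ, ∃ n₀ : ℕ, ∀ n : ℕ, n₀ ≤ n → Adm f n →
      SmallDensity (fun k => line (f k) n) r n C → NoTr (fun k => line (f k) n) ((n : ℝ) ^ η) →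
        ∀ Z Y : ℕ, (n : ℝ) ^ θ ≤ Y →
          PoissonLawP (fun k => line (f k) n) r n Z Y x₀ ε ∧ GapLawP (fun k => line (f k) n) r n Z Y l₀ x₀ ε) ∧
    ∃ r₀ : ℕ, ∀ r : ℕ, r₀ ≤ r → ∀ C ε : ℝ, 0 < ε → ∃ c : ℝ, 0 < c ∧ ∀ δ : ℝ, 0 < δ → ∃ B n₀ : ℕ,
      ∀ n : ℕ, n₀ ≤ n → Adm f n → SmallDensity (fun k => line (f k) n) r n C →
        ∀ u Y : ℕ, (n : ℝ) ^ θ ≤ Y → Y ≤ n → Y ≤ u → ∀ A : Set ℕ, (∀ x ∈ A, GoodP (fun k => line (f k) n) r n x) →
          (N (Irregular A (VP (fun k => line (f k) n) r n) c δ B Y) u (u + Y) : ℝ) ≤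
            ε * (Y * VP (fun k => line (f k) n) r n) := by
  obtain ⟨D, E, n₁, hE, hsys⟩ := sys f
  constructor
  · intro l₀ x₀ ε hε
    obtain ⟨r₀, _, h⟩ := Pool.Agent.Q25.UReg.poly_laws m D E η θ hE hη hθ l₀ x₀ ε hε
    refine ⟨r₀, fun r hr C => ?_⟩
    obtain ⟨n₀, hn₀⟩ := Filter.eventually_atTop.1 (h r hr C)
    exact ⟨max n₀ n₁, fun n hn hf hsd htr Z Y hY =>
      hn₀ n ((le_max_left _ _).trans hn) _ (hsys n ((le_max_right _ _).trans hn) hf) hsd htr Z Y hY⟩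
  · obtain ⟨r₀, _, h⟩ := Pool.Agent.Q25.UReg.poly_reg m D E θ hE hθ
    refine ⟨r₀, fun r hr C ε hε => ?_⟩
    obtain ⟨c, hc, h1⟩ := h r hr C ε hε
    refine ⟨c, hc, fun δ hδ => ?_⟩
    obtain ⟨B, hB⟩ := h1 δ hδ
    obtain ⟨n₀, hn₀⟩ := Filter.eventually_atTop.1 hB
    exact ⟨B, max n₀ n₁, fun n hn hf hsd u Y hXY hYX hYu A hA =>
      hn₀ n ((le_max_left _ _).trans hn) _ (hsys n ((le_max_right _ _).trans hn) hf) hsd u Y hXY hYX hYu A hA⟩

end Pool.Agent.Results.MP_0da313_nt.UniformLaws
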